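import Pool.Agent.H283.HT.Stm

/-!
# Basic facts on planar symmetric convex bodies (project HT, helper997)
-/

set_option autoImplicit false

namespace Pool.Agent.H997.HTX

open Pool.Agent.H283.HT

theorem dt_self {ν : P2} (hν : ν ≠ 0) : 0 < dt ν ν := by
  unfold dt
  by_contra h
  push Not at h
  apply hν
  have h1 : ν.1 = 0 := by nlinarith [sq_nonneg ν.1, sq_nonneg ν.2]
  have h2 : ν.2 = 0 := by nlinarith [sq_nonneg ν.1, sq_nonneg ν.2]
  exact Prod.ext h1 h2

theorem DI_done : S_DI := by
  intro Q hQ
  have hcomb : ∀ p ∈ Q, ∀ c : ℝ, 0 ≤ c → c < 1 → c • p ∈ interior Q := by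
    intro p hp c hc0 hc1
    have := hQ.conv.combo_interior_self_mem_interior hQ.zero hp (a := 1 - c) (b := c)
      (by linarith) hc0 (by ring)
    rwa [smul_zero, zero_add] at this
  refine ⟨?_, ?_, ?_, ?_⟩
  · intro p hp c hc
    rw [abs_lt] at hc
    rcases le_or_gt 0 c with h | h
    · exact hcomb p hp c h hc.2
    · have := hcomb (-p) (hQ.sym p hp) (-c) (by linarith) (by linarith)
      rwa [smul_neg, neg_smul, neg_neg] at this
  · intro p hp hpi
    obtain ⟨f, hf⟩ := geometric_hahn_banach_open_point hQ.conv.interior isOpen_interior hpi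
    have hfd : ∀ x : P2, f x = dt (f (1, 0), f (0, 1)) x := by
      intro x
      have h1 : x = x.1 • ((1, 0) : P2) + x.2 • ((0, 1) : P2) := by
        ext <;> simp
      conv_lhs => rw [h1]
      rw [map_add, map_smul, map_smul, smul_eq_mul, smul_eq_mul]
      unfold dt
      simp only
      ring
    have hp0 : 0 < f p := by
      have := hf 0 hQ.zero
      rwa [map_zero] at this
    refine ⟨(f (1, 0), f (0, 1)), ?_, ?_, ?_⟩
    · intro h
      rw [hfd p, h] at hp0
      unfold dt at hp0
      simp at hp0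
    · intro x hx
      rw [← hfd, ← hfd]
      by_contra hlt
      push Not at hlt
      have hx0 : 0 < f x := hp0.trans hlt
      have h1 := hf _ (hcomb x hx (f p / f x) (by positivity) (by rw [div_lt_one hx0]; exact hlt))
      rw [map_smul, smul_eq_mul, div_mul_cancel₀ _ hx0.ne'] at h1
      exact lt_irrefl _ h1
    · rw [← hfd]
      exact hp0
  · obtain ⟨B, hB, h⟩ := hQ.comp.isBounded.exists_pos_norm_le
    refine ⟨B, hB, fun p hp => ?_⟩
    have := h p hp
    rw [Prod.norm_def, max_le_iff, Real.norm_eq_abs, Real.norm_eq_abs] at this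
    exact this
  · intro ν hν
    have hcont : Continuous fun t : ℝ => t • ν := by fun_prop
    have h0 : (0 : ℝ) ∈ (fun t : ℝ => t • ν) ⁻¹' interior Q := by
      simp only [Set.mem_preimage, zero_smul]
      exact hQ.zero
    obtain ⟨ε, hε, hball⟩ := Metric.isOpen_iff.1 (isOpen_interior.preimage hcont) 0 h0
    have h1 : (ε / 2) ∈ Metric.ball (0 : ℝ) ε := by
      rw [Metric.mem_ball, Real.dist_eq, sub_zero, abs_of_pos (by positivity)]
      linarith
    have h2 := hball h1
    refine ⟨(ε / 2) • ν, interior_subset h2, ?_⟩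
    have h3 : dt ν ((ε / 2) • ν) = ε / 2 * dt ν ν := by
      unfold dt
      simp only [Prod.smul_fst, Prod.smul_snd, smul_eq_mul]
      ring
    rw [h3]
    exact mul_pos (by positivity) (dt_self hν)

end Pool.Agent.H997.HTX
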