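import Pool.Agent.H867.FT.Stm

/-!
# Splittings localize (helper997)
-/

set_option autoImplicit false

namespace Pool.Agent.H997.FT867LOC

open Pool.Agent.H867.FT

section
variable {A : Type} (B : Type) [CommRing A] [CommRing B] [Algebra A B] (M : Submonoid A)
  [IsLocalization M B] {q : ℕ} {φ : A →+ A}

/-- the value at a fraction -/
noncomputable def val (q : ℕ) (φ : A →+ A) (r : A) (s : M) : B :=
  IsLocalization.mk' B (φ (r * (s : A) ^ (q - 1))) s

variable {M}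

theorem val_eq (hq : 1 ≤ q) (hφ : ∀ r s : A, φ (r ^ q * s) = r * φ s) {r r' : A} {s s' : M}
    (h : IsLocalization.mk' B r s = IsLocalization.mk' B r' s') :
    val B M q φ r s = val B M q φ r' s' := by
  obtain ⟨t, ht⟩ := IsLocalization.eq.1 h
  unfold val
  rw [IsLocalization.eq]
  refine ⟨t, ?_⟩
  obtain ⟨m, rfl⟩ : ∃ m, q = m + 1 := ⟨q - 1, by omega⟩
  rw [Nat.add_sub_cancel]
  rw [← mul_assoc, ← mul_assoc, ← hφ, ← hφ]
  congr 1
  have e1 : ((t : A) * (s' : A)) ^ (m + 1) * (r * (s : A) ^ m) =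
      (t : A) ^ m * (s' : A) ^ m * (s : A) ^ m * ((t : A) * ((s' : A) * r)) := by ring
  have e2 : ((t : A) * (s : A)) ^ (m + 1) * (r' * (s' : A) ^ m) =
      (t : A) ^ m * (s' : A) ^ m * (s : A) ^ m * ((t : A) * ((s : A) * r')) := by ring
  rw [e1, e2, ht]

theorem val_add (hq : 1 ≤ q) (hφ : ∀ r s : A, φ (r ^ q * s) = r * φ s) (r r' : A) (s s' : M) :
    val B M q φ (r * s' + r' * s) (s * s') = val B M q φ r s + val B M q φ r' s' := by
  unfold val
  rw [← IsLocalization.mk'_add]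
  congr 1
  obtain ⟨m, rfl⟩ : ∃ m, q = m + 1 := ⟨q - 1, by omega⟩
  rw [Nat.add_sub_cancel]
  have e1 : (r * (s' : A) + r' * (s : A)) * ((s * s' : M) : A) ^ m =
      (s' : A) ^ (m + 1) * (r * (s : A) ^ m) + (s : A) ^ (m + 1) * (r' * (s' : A) ^ m) := by
    rw [Submonoid.coe_mul]
    ring
  rw [e1, map_add, hφ, hφ]
  ring

theorem val_mul (hq : 1 ≤ q) (hφ : ∀ r s : A, φ (r ^ q * s) = r * φ s) (a r : A) (u s : M) :
    val B M q φ (a ^ q * r) (u ^ q * s) = IsLocalization.mk' B a u * val B M q φ r s := by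
  unfold val
  rw [← IsLocalization.mk'_mul, IsLocalization.eq]
  refine ⟨1, ?_⟩
  obtain ⟨m, rfl⟩ : ∃ m, q = m + 1 := ⟨q - 1, by omega⟩
  rw [Nat.add_sub_cancel]
  have e1 : a ^ (m + 1) * r * ((u ^ (m + 1) * s : M) : A) ^ m =
      (a * (u : A) ^ m) ^ (m + 1) * (r * (s : A) ^ m) := by
    rw [Submonoid.coe_mul, SubmonoidClass.coe_pow]
    ring
  rw [e1, hφ]
  simp only [Submonoid.coe_mul, SubmonoidClass.coe_pow, Submonoid.coe_one]
  ring

end

/-- **LOC.** -/
theorem loc : S_LOC := by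
  intro A B _ _ _ M _ q f hq hf
  obtain ⟨φ, hφ, hφf⟩ := hf
  obtain ⟨ψ, hψ⟩ : ∃ ψ : B → B, ∀ (r : A) (s : M),
      ψ (IsLocalization.mk' B r s) = val B M q φ r s := by
    refine ⟨fun b => val B M q φ (IsLocalization.sec M b).1 (IsLocalization.sec M b).2, ?_⟩
    intro r s
    exact val_eq B hq hφ (IsLocalization.mk'_sec B _)
  have hadd : ∀ x y : B, ψ (x + y) = ψ x + ψ y := by
    intro x y
    obtain ⟨r, s, rfl⟩ := IsLocalization.exists_mk'_eq M x
    obtain ⟨r', s', rfl⟩ := IsLocalization.exists_mk'_eq M y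
    rw [← IsLocalization.mk'_add, hψ, hψ, hψ, val_add B hq hφ]
  refine ⟨AddMonoidHom.mk' ψ hadd, ?_, ?_⟩
  · intro x y
    obtain ⟨a, u, rfl⟩ := IsLocalization.exists_mk'_eq M x
    obtain ⟨r, s, rfl⟩ := IsLocalization.exists_mk'_eq M y
    show ψ _ = _ * ψ _
    rw [← IsLocalization.mk'_pow, ← IsLocalization.mk'_mul, hψ, hψ, val_mul B hq hφ]
  · show ψ (algebraMap A B f) = 1
    rw [← IsLocalization.mk'_one (M := M) B f, hψ]
    unfold val
    rw [Submonoid.coe_one, one_pow, mul_one, hφf, IsLocalization.mk'_one, map_one]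

end Pool.Agent.H997.FT867LOC
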