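import Pool.Agent.H402.FF.Stm

/-!
# Project FF (helper402): the case WA
-/

set_option autoImplicit false
set_option linter.all false

open Finset

namespace Pool.Agent.H997.FF_WA

open Pool.Agent.H402.FF

universe u

section
variable {F : Type u} [Field F]

theorem ind_congr {p q : Prop} [Decidable p] [Decidable q] (h : p ↔ q) : ind F p = ind F q := by
  unfold ind
  by_cases hp : p
  · rw [if_pos hp, if_pos (h.1 hp)]
  · rw [if_neg hp, if_neg (fun hq => hp (h.2 hq))]

theorem ind_true {p : Prop} [Decidable p] (h : p) : ind F p = 1 := if_pos h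

theorem ind_false {p : Prop} [Decidable p] (h : ¬ p) : ind F p = 0 := if_neg h

/-- the tensor -/
def t (e a b c P R : F) (x y z : ℕ) : F :=
  e + a * ind F (y ≤ z) + b * ind F (x ≤ z) + c * ind F (x ≤ y) + P * ind F (x ≤ y ∧ y ≤ z) +
    R * ind F (y ≤ z ∧ z < x)

variable (e a b c P R : F)

/-- difference in the first direction -/
theorem t_f (i y z : ℕ) : t e a b c P R i y z - t e a b c P R (i + 1) y z =
    b * ind F (z = i) + c * ind F (y = i) + P * (ind F (y = i) * ind F (i ≤ z)) -
      R * (ind F (z = i) * ind F (y ≤ i)) := by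
  have h1 : ind F (i ≤ z) - ind F (i + 1 ≤ z) = ind F (z = i) := by
    unfold ind
    split_ifs <;> first | (exfalso; omega) | ring
  have h2 : ind F (i ≤ y) - ind F (i + 1 ≤ y) = ind F (y = i) := by
    unfold ind
    split_ifs <;> first | (exfalso; omega) | ring
  have h3 : ind F (i ≤ y ∧ y ≤ z) - ind F (i + 1 ≤ y ∧ y ≤ z) =
      ind F (y = i) * ind F (i ≤ z) := by
    unfold ind
    split_ifs <;> first | (exfalso; omega) | ring
  have h4 : ind F (y ≤ z ∧ z < i) - ind F (y ≤ z ∧ z < i + 1) =
      - (ind F (z = i) * ind F (y ≤ i)) := by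
    unfold ind
    split_ifs <;> first | (exfalso; omega) | ring
  unfold t
  linear_combination b * h1 + c * h2 + P * h3 + R * h4

/-- difference in the first and second directions -/
theorem t_fg (i j z : ℕ) : (t e a b c P R i j z - t e a b c P R (i + 1) j z) -
    (t e a b c P R i (j + 1) z - t e a b c P R (i + 1) (j + 1) z) =
    c * (ind F (j = i) - ind F (j + 1 = i)) +
      P * ((ind F (j = i) - ind F (j + 1 = i)) * ind F (i ≤ z)) -
      R * (ind F (z = i) * ind F (j = i)) := by
  have h1 : ind F (j ≤ i) - ind F (j + 1 ≤ i) = ind F (j = i) := by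
    unfold ind
    split_ifs <;> first | (exfalso; omega) | ring
  rw [t_f, t_f]
  linear_combination (-R * ind F (z = i)) * h1

/-- difference in the three directions -/
theorem t_fgh (i j k : ℕ) : ((t e a b c P R i j (k + 1) - t e a b c P R (i + 1) j (k + 1)) -
    (t e a b c P R i (j + 1) (k + 1) - t e a b c P R (i + 1) (j + 1) (k + 1))) -
    ((t e a b c P R i j k - t e a b c P R (i + 1) j k) -
    (t e a b c P R i (j + 1) k - t e a b c P R (i + 1) (j + 1) k)) =
      P * (ind F (j = i) - ind F (j + 1 = i)) * ind F (k + 1 = i) -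
      R * ind F (j = i) * (ind F (k + 1 = i) - ind F (k = i)) := by
  have h1 : ind F (i ≤ k + 1) - ind F (i ≤ k) = ind F (k + 1 = i) := by
    unfold ind
    split_ifs <;> first | (exfalso; omega) | ring
  rw [t_fg, t_fg]
  linear_combination (P * (ind F (j = i) - ind F (j + 1 = i))) * h1

end

section
variable {F : Type u} [Field F] (n : ℕ)

/-- the next index -/
def nx (i : Fin (n + 1)) : Fin (n + 1) := if h : i.val + 1 < n + 1 then ⟨i.val + 1, h⟩ else 0

/-- the previous index -/
def pv (i : Fin (n + 1)) : Fin (n + 1) := ⟨i.val - 1, by omega⟩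

/-- virtual index -/
def ph (i : Fin (n + 1)) : ℕ := if i = 0 then n + 1 else i.val

variable {n}

theorem ph_zero : ph n 0 = n + 1 := if_pos rfl

theorem ph_succ (i : Fin n) : ph n i.succ = i.val + 1 := by
  unfold ph
  rw [if_neg (Fin.succ_ne_zero i), Fin.val_succ]

theorem ph_nx (i : Fin n) : ph n (nx n i.succ) = i.val + 2 := by
  unfold nx
  rw [Fin.val_succ]
  split_ifs with h
  · unfold ph
    rw [if_neg]
    intro h0
    have := congrArg Fin.val h0
    simp at this
  · rw [ph_zero]
    omega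

theorem ph_nx0 (hn : 1 ≤ n) : ph n (nx n 0) = 1 := by
  unfold nx
  rw [dif_pos (by rw [Fin.val_zero]; omega)]
  unfold ph
  rw [if_neg]
  · rfl
  · intro h0
    have := congrArg Fin.val h0
    simp at this

theorem pv_succ (i : Fin n) : (pv n i.succ).val = i.val := by
  show i.succ.val - 1 = i.val
  rw [Fin.val_succ]
  omega

/-- coefficients -/
def p (s : F) (i x : Fin (n + 1)) : F :=
  if i = 0 then (1 + s) * ind F (x = 0) - s * ind F (x = nx n 0)
  else ind F (x = i) - ind F (x = nx n i)

/-- coefficients -/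
def q (j y : Fin (n + 1)) : F :=
  if j = 0 then ind F (y = 0) else ind F (y = j) - ind F (y = nx n j)

/-- coefficients -/
def r (k z : Fin (n + 1)) : F :=
  if k = 0 then ind F (z = 0) else ind F (z = k) - ind F (z = pv n k)

theorem sum_ind (x₀ : Fin (n + 1)) (g : Fin (n + 1) → F) : ∑ x, ind F (x = x₀) * g x = g x₀ := by
  unfold ind
  simp

theorem sum_p0 (s : F) (g : Fin (n + 1) → F) :
    ∑ x, p s 0 x * g x = (1 + s) * g 0 - s * g (nx n 0) := by
  have h : ∀ x : Fin (n + 1), p s 0 x * g x =
      (1 + s) * (ind F (x = 0) * g x) - s * (ind F (x = nx n 0) * g x) := by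
    intro x
    unfold p
    rw [if_pos rfl]
    ring
  simp only [h]
  rw [Finset.sum_sub_distrib, ← Finset.mul_sum, ← Finset.mul_sum, sum_ind, sum_ind]

theorem sum_p (s : F) (i : Fin n) (g : Fin (n + 1) → F) :
    ∑ x, p s i.succ x * g x = g i.succ - g (nx n i.succ) := by
  have h : ∀ x : Fin (n + 1), p s i.succ x * g x =
      (ind F (x = i.succ) * g x) - (ind F (x = nx n i.succ) * g x) := by
    intro x
    unfold p
    rw [if_neg (Fin.succ_ne_zero i)]
    ring
  simp only [h]
  rw [Finset.sum_sub_distrib, sum_ind, sum_ind]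

theorem sum_q0 (g : Fin (n + 1) → F) : ∑ x, q 0 x * g x = g 0 := by
  have h : ∀ x : Fin (n + 1), q 0 x * g x = ind F (x = 0) * g x := by
    intro x
    unfold q
    rw [if_pos rfl]
  simp only [h]
  rw [sum_ind]

theorem sum_q (i : Fin n) (g : Fin (n + 1) → F) :
    ∑ x, q i.succ x * g x = g i.succ - g (nx n i.succ) := by
  have h : ∀ x : Fin (n + 1), q i.succ x * g x =
      (ind F (x = i.succ) * g x) - (ind F (x = nx n i.succ) * g x) := by
    intro x
    unfold q
    rw [if_neg (Fin.succ_ne_zero i)]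
    ring
  simp only [h]
  rw [Finset.sum_sub_distrib, sum_ind, sum_ind]

theorem sum_r0 (g : Fin (n + 1) → F) : ∑ x, r 0 x * g x = g 0 := by
  have h : ∀ x : Fin (n + 1), r 0 x * g x = ind F (x = 0) * g x := by
    intro x
    unfold r
    rw [if_pos rfl]
  simp only [h]
  rw [sum_ind]

theorem sum_r (i : Fin n) (g : Fin (n + 1) → F) :
    ∑ x, r i.succ x * g x = g i.succ - g (pv n i.succ) := by
  have h : ∀ x : Fin (n + 1), r i.succ x * g x =
      (ind F (x = i.succ) * g x) - (ind F (x = pv n i.succ) * g x) := by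
    intro x
    unfold r
    rw [if_neg (Fin.succ_ne_zero i)]
    ring
  simp only [h]
  rw [Finset.sum_sub_distrib, sum_ind, sum_ind]

theorem sum3 (s : F) (i j k : Fin (n + 1)) (G : Fin (n + 1) → Fin (n + 1) → Fin (n + 1) → F) :
    ∑ x, ∑ y, ∑ z, p s i x * q j y * r k z * G x y z =
      ∑ x, p s i x * ∑ y, q j y * ∑ z, r k z * G x y z := by
  refine Finset.sum_congr rfl fun x _ => ?_
  rw [Finset.mul_sum]
  refine Finset.sum_congr rfl fun y _ => ?_
  rw [← mul_assoc, Finset.mul_sum]
  refine Finset.sum_congr rfl fun z _ => ?_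
  ring

variable (n) in
/-- the positions -/
def X (x : Fin (n + 1)) : ℤ := 3 * (ph n x : ℤ) - 2

variable (n) in
/-- the positions -/
def Y (y : Fin (n + 1)) : ℤ := 3 * (ph n y : ℤ) - 1

variable (n) in
/-- the positions -/
def Z (z : Fin (n + 1)) : ℤ := 3 * (z.val : ℤ)

theorem T_eq {e a b c P R : F} {T : ℤ → ℤ → ℤ → F} (hT : AgI T e a b c P R)
    (x y z : Fin (n + 1)) : T (X n x) (Y n y) (Z n z) = t e a b c P R (ph n x) (ph n y) z.val := by
  rw [hT (X n x) (Y n y) (Z n z) (by unfold X Y; omega) (by unfold Y Z; omega)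
    (by unfold X Z; omega)]
  unfold TI t
  have h1 : (Y n y < Z n z) ↔ ph n y ≤ z.val := by unfold Y Z; omega
  have h2 : (X n x < Z n z) ↔ ph n x ≤ z.val := by unfold X Z; omega
  have h3 : (X n x < Y n y) ↔ ph n x ≤ ph n y := by unfold X Y; omega
  have h4 : (Z n z < X n x) ↔ z.val < ph n x := by unfold X Z; omega
  rw [ind_congr h1, ind_congr h2, ind_congr h3, ind_congr (and_congr h3 h1),
    ind_congr (and_congr h1 h4)]

/-- the new tensor -/
def N (e a b c P R s : F) (i j k : Fin (n + 1)) : F :=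
  ∑ x, p s i x * ∑ y, q j y * ∑ z, r k z * t e a b c P R (ph n x) (ph n y) z.val

variable (e a b c P R s : F)

theorem N_sss (i j k : Fin n) : N e a b c P R s i.succ j.succ k.succ =
    P * (ind F (j.val + 1 = i.val + 1) - ind F (j.val + 1 + 1 = i.val + 1)) *
      ind F (k.val + 1 = i.val + 1) -
    R * ind F (j.val + 1 = i.val + 1) *
      (ind F (k.val + 1 = i.val + 1) - ind F (k.val = i.val + 1)) := by
  rw [← t_fgh e a b c P R (i.val + 1) (j.val + 1) k.val]
  unfold N
  simp only [sum_p, sum_q, sum_r, ph_succ, ph_nx, pv_succ, Fin.val_succ]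
  ring

theorem N_ss0 (i j : Fin n) : N e a b c P R s i.succ j.succ 0 =
    c * (ind F (j.val + 1 = i.val + 1) - ind F (j.val + 1 + 1 = i.val + 1)) := by
  have h := t_fg e a b c P R (i.val + 1) (j.val + 1) 0
  rw [ind_false (F := F) (p := i.val + 1 ≤ 0) (by omega),
    ind_false (F := F) (p := 0 = i.val + 1) (by omega)] at h
  unfold N
  simp only [sum_p, sum_q, sum_r0, ph_succ, ph_nx, Fin.val_zero]
  linear_combination h

theorem N_s0s (i k : Fin n) : N e a b c P R s i.succ 0 k.succ =
    b * (ind F (k.val + 1 = i.val + 1) - ind F (k.val = i.val + 1)) := by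
  have h1 := t_f e a b c P R (i.val + 1) (n + 1) (k.val + 1)
  have h2 := t_f e a b c P R (i.val + 1) (n + 1) k.val
  have hi := i.2
  rw [ind_false (F := F) (p := n + 1 = i.val + 1) (by omega),
    ind_false (F := F) (p := n + 1 ≤ i.val + 1) (by omega)] at h1 h2
  unfold N
  simp only [sum_p, sum_q0, sum_r, ph_succ, ph_nx, ph_zero, pv_succ, Fin.val_succ]
  linear_combination h1 - h2

theorem N_s00 (i : Fin n) : N e a b c P R s i.succ 0 0 = 0 := by
  have h1 := t_f e a b c P R (i.val + 1) (n + 1) 0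
  have hi := i.2
  rw [ind_false (F := F) (p := n + 1 = i.val + 1) (by omega),
    ind_false (F := F) (p := n + 1 ≤ i.val + 1) (by omega),
    ind_false (F := F) (p := 0 = i.val + 1) (by omega)] at h1
  unfold N
  simp only [sum_p, sum_q0, sum_r0, ph_succ, ph_nx, ph_zero, Fin.val_zero]
  linear_combination h1

/-- the row `0` -/
theorem row0 (hs : s * (P - R) = a + R) {y z : ℕ} (hy : 1 ≤ y) (hy' : y ≤ n + 1) (hz : z ≤ n) :
    (1 + s) * t e a b c P R (n + 1) y z - s * t e a b c P R 1 y z =
      e + c * ind F (y = n + 1) - s * b * ind F (1 ≤ z) - s * c * ind F (y ≤ n) := by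
  unfold t
  rw [ind_false (F := F) (p := n + 1 ≤ z) (by omega), ind_true (F := F) (p := 1 ≤ y) hy,
    ind_false (F := F) (p := n + 1 ≤ y ∧ y ≤ z) (by omega),
    ind_congr (F := F) (p := y ≤ z ∧ z < n + 1) (q := y ≤ z) (by omega),
    ind_congr (F := F) (p := 1 ≤ y ∧ y ≤ z) (q := y ≤ z) (by omega),
    ind_false (F := F) (p := y ≤ z ∧ z < 1) (by omega),
    ind_congr (F := F) (p := n + 1 ≤ y) (q := y = n + 1) (by omega)]
  have h : ind F (y = n + 1) = 1 - ind F (y ≤ n) := by
    unfold ind
    split_ifs <;> first | (exfalso; omega) | ring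
  rw [h]
  linear_combination (-ind F (y ≤ z)) * hs

theorem N_0yz (hs : s * (P - R) = a + R) (hn : 1 ≤ n) (j k : Fin (n + 1)) :
    N e a b c P R s 0 j k = ∑ y, q j y * ∑ z, r k z *
      (e + c * ind F (ph n y = n + 1) - s * b * ind F (1 ≤ z.val) -
        s * c * ind F (ph n y ≤ n)) := by
  unfold N
  rw [sum_p0, ph_zero, ph_nx0 hn, Finset.mul_sum, Finset.mul_sum, ← Finset.sum_sub_distrib]
  refine Finset.sum_congr rfl fun y _ => ?_
  rw [← mul_assoc, ← mul_assoc, mul_comm (1 + s), mul_comm s, mul_assoc, mul_assoc, ← mul_sub,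
    Finset.mul_sum, Finset.mul_sum, ← Finset.sum_sub_distrib]
  congr 1
  refine Finset.sum_congr rfl fun z _ => ?_
  have hy : 1 ≤ ph n y ∧ ph n y ≤ n + 1 := by
    have hy2 := y.2
    unfold ph
    split_ifs with h
    · omega
    · have : y.val ≠ 0 := fun h0 => h (Fin.ext h0)
      omega
  rw [← row0 e a b c P R s hs hy.1 hy.2 (by have := z.2; omega)]
  ring

theorem N_0ss (hs : s * (P - R) = a + R) (hn : 1 ≤ n) (j k : Fin n) :
    N e a b c P R s 0 j.succ k.succ = 0 := by
  rw [N_0yz e a b c P R s hs hn]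
  simp only [sum_q, sum_r]
  ring

theorem N_0s0 (hs : s * (P - R) = a + R) (hn : 1 ≤ n) (j : Fin n) :
    N e a b c P R s 0 j.succ 0 = - (1 + s) * c * ind F (j.val + 1 = n) := by
  rw [N_0yz e a b c P R s hs hn]
  simp only [sum_q, sum_r0, ph_succ, ph_nx, Fin.val_zero]
  have hj := j.2
  rw [ind_false (F := F) (p := j.val + 1 = n + 1) (by omega),
    ind_true (F := F) (p := j.val + 1 ≤ n) (by omega),
    ind_congr (F := F) (p := j.val + 2 = n + 1) (q := j.val + 1 = n) (by omega)]
  have h : ind F (j.val + 2 ≤ n) = 1 - ind F (j.val + 1 = n) := by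
    unfold ind
    split_ifs <;> first | (exfalso; omega) | ring
  rw [h]
  ring

theorem N_00s (hs : s * (P - R) = a + R) (hn : 1 ≤ n) (k : Fin n) :
    N e a b c P R s 0 0 k.succ = - s * b * ind F (k.val + 1 = 1) := by
  rw [N_0yz e a b c P R s hs hn]
  simp only [sum_q0, sum_r, ph_zero, pv_succ, Fin.val_succ]
  rw [ind_true (F := F) (p := 1 ≤ k.val + 1) (by omega)]
  have h : ind F (1 ≤ k.val) = 1 - ind F (k.val + 1 = 1) := by
    unfold ind
    split_ifs <;> first | (exfalso; omega) | ring
  rw [h]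
  ring

theorem N_000 (hs : s * (P - R) = a + R) (hn : 1 ≤ n) :
    N e a b c P R s (0 : Fin (n + 1)) 0 0 = e + c := by
  rw [N_0yz e a b c P R s hs hn]
  rw [sum_q0, sum_r0]
  rw [ind_true (F := F) (p := ph n 0 = n + 1) ph_zero,
    ind_false (F := F) (p := 1 ≤ (0 : Fin (n + 1)).val) (by rw [Fin.val_zero]; omega),
    ind_false (F := F) (p := ph n 0 ≤ n) (by rw [ph_zero]; omega)]
  ring

/-- extension of `v` by zero -/
def ex (v : Fin (n + 1) → F) (m : ℕ) : F := ∑ j : Fin n, v j.succ * ind F (j.val + 1 = m)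

theorem ex_eq (v : Fin (n + 1) → F) (j : Fin n) : ex v (j.val + 1) = v j.succ := by
  unfold ex
  rw [Finset.sum_eq_single j]
  · rw [ind_true rfl, mul_one]
  · intro k _ hk
    rw [ind_false, mul_zero]
    intro h
    exact hk (Fin.ext (by omega))
  · intro h
    exact absurd (Finset.mem_univ j) h

theorem ex_zero (v : Fin (n + 1) → F) : ex v 0 = 0 := by
  unfold ex
  refine Finset.sum_eq_zero fun j _ => ?_
  rw [ind_false (by omega), mul_zero]

theorem ex_last (v : Fin (n + 1) → F) : ex v (n + 1) = 0 := by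
  unfold ex
  refine Finset.sum_eq_zero fun j _ => ?_
  have := j.2
  rw [ind_false (by omega), mul_zero]

theorem ex_sub (v v' : Fin (n + 1) → F) (l : F) (m : ℕ) :
    ex (v - l • v') m = ex v m - l * ex v' m := by
  unfold ex
  rw [Finset.mul_sum, ← Finset.sum_sub_distrib]
  refine Finset.sum_congr rfl fun j _ => ?_
  simp only [Pi.sub_apply, Pi.smul_apply, smul_eq_mul]
  ring

theorem dsum {n : ℕ} (v w A B C D : Fin n → F) (P R : F) :
    ∑ j, ∑ k, v j * w k * (P * A j * B k - R * C j * D k) =
      P * (∑ j, v j * A j) * (∑ k, w k * B k) - R * (∑ j, v j * C j) * (∑ k, w k * D k) := by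
  rw [mul_assoc P, mul_assoc R, Finset.sum_mul_sum, Finset.sum_mul_sum, Finset.mul_sum,
    Finset.mul_sum, ← Finset.sum_sub_distrib]
  refine Finset.sum_congr rfl fun j _ => ?_
  rw [Finset.mul_sum, Finset.mul_sum, ← Finset.sum_sub_distrib]
  refine Finset.sum_congr rfl fun k _ => ?_
  ring

theorem split (v w : Fin (n + 1) → F) (M : Fin (n + 1) → Fin (n + 1) → F) :
    ∑ j, ∑ k, v j * w k * M j k = v 0 * w 0 * M 0 0 + v 0 * (∑ k : Fin n, w k.succ * M 0 k.succ) +
      w 0 * (∑ j : Fin n, v j.succ * M j.succ 0) +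
      ∑ j : Fin n, ∑ k : Fin n, v j.succ * w k.succ * M j.succ k.succ := by
  rw [Fin.sum_univ_succ, Fin.sum_univ_succ]
  have h : ∀ j : Fin n, ∑ k, v j.succ * w k * M j.succ k = v j.succ * w 0 * M j.succ 0 +
      ∑ k : Fin n, v j.succ * w k.succ * M j.succ k.succ := by
    intro j
    rw [Fin.sum_univ_succ]
  rw [Finset.sum_congr rfl fun j _ => h j, Finset.sum_add_distrib, Finset.mul_sum, Finset.mul_sum]
  have h1 : ∑ k : Fin n, v 0 * w k.succ * M 0 k.succ = ∑ k : Fin n, v 0 * (w k.succ * M 0 k.succ) :=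
    Finset.sum_congr rfl fun k _ => by ring
  have h2 : ∑ j : Fin n, v j.succ * w 0 * M j.succ 0 =
      ∑ j : Fin n, w 0 * (v j.succ * M j.succ 0) :=
    Finset.sum_congr rfl fun k _ => by ring
  rw [h1, h2]
  ring

/-- the form of the row `i` -/
theorem form_s (i : Fin n) (v w : Fin (n + 1) → F) :
    ∑ j, ∑ k, v j * w k * N e a b c P R s i.succ j k =
      (P - R) * ex v (i.val + 1) * ex w (i.val + 1) - P * ex v i.val * ex w (i.val + 1) +
      R * ex v (i.val + 1) * ex w (i.val + 2) + b * v 0 * (ex w (i.val + 1) - ex w (i.val + 2)) +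
      c * w 0 * (ex v (i.val + 1) - ex v i.val) := by
  rw [split]
  simp only [N_s00, N_ss0, N_s0s, N_sss]
  have hA : ∑ j : Fin n, v j.succ *
      (ind F (j.val + 1 = i.val + 1) - ind F (j.val + 1 + 1 = i.val + 1)) =
      ex v (i.val + 1) - ex v i.val := by
    unfold ex
    rw [← Finset.sum_sub_distrib]
    refine Finset.sum_congr rfl fun j _ => ?_
    rw [ind_congr (F := F) (p := j.val + 1 + 1 = i.val + 1) (q := j.val + 1 = i.val) (by omega)]
    ring
  have hD : ∑ k : Fin n, w k.succ *
      (ind F (k.val + 1 = i.val + 1) - ind F (k.val = i.val + 1)) =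
      ex w (i.val + 1) - ex w (i.val + 2) := by
    unfold ex
    rw [← Finset.sum_sub_distrib]
    refine Finset.sum_congr rfl fun j _ => ?_
    rw [ind_congr (F := F) (p := j.val = i.val + 1) (q := j.val + 1 = i.val + 2) (by omega)]
    ring
  have h1 : ∑ k : Fin n, w k.succ * (b *
      (ind F (k.val + 1 = i.val + 1) - ind F (k.val = i.val + 1))) =
      b * (ex w (i.val + 1) - ex w (i.val + 2)) := by
    rw [← hD, Finset.mul_sum]
    exact Finset.sum_congr rfl fun k _ => by ring
  have h2 : ∑ j : Fin n, v j.succ * (c *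
      (ind F (j.val + 1 = i.val + 1) - ind F (j.val + 1 + 1 = i.val + 1))) =
      c * (ex v (i.val + 1) - ex v i.val) := by
    rw [← hA, Finset.mul_sum]
    exact Finset.sum_congr rfl fun k _ => by ring
  rw [h1, h2, dsum, hA, hD]
  unfold ex
  ring

/-- the form of the row `0` -/
theorem form_0 (hs : s * (P - R) = a + R) (hn : 1 ≤ n) (v w : Fin (n + 1) → F) :
    ∑ j, ∑ k, v j * w k * N e a b c P R s 0 j k =
      (e + c) * v 0 * w 0 + (- s * b) * v 0 * ex w 1 + (- (1 + s) * c) * ex v n * w 0 := by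
  rw [split]
  simp only [N_000 e a b c P R s hs hn, N_00s e a b c P R s hs hn, N_0s0 e a b c P R s hs hn,
    N_0ss e a b c P R s hs hn]
  have h1 : ∑ k : Fin n, w k.succ * (- s * b * ind F (k.val + 1 = 1)) = - s * b * ex w 1 := by
    unfold ex
    rw [Finset.mul_sum]
    exact Finset.sum_congr rfl fun k _ => by ring
  have h2 : ∑ j : Fin n, v j.succ * (- (1 + s) * c * ind F (j.val + 1 = n)) =
      - (1 + s) * c * ex v n := by
    unfold ex
    rw [Finset.mul_sum]
    exact Finset.sum_congr rfl fun k _ => by ring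
  rw [h1, h2]
  simp only [mul_zero, Finset.sum_const_zero]
  ring

end

section
variable {F : Type u} [Field F] {n : ℕ}

/-- the properties of the spaces -/
structure Sp (b c P R : F) (τ : Fin n → Fin 3) (V W : Submodule F (Fin (n + 1) → F)) : Prop where
  eq : ∀ i : Fin n, τ i ≠ 0 → ∀ v ∈ V, ∀ w ∈ W,
    (P - R) * ex v (i.val + 1) * ex w (i.val + 1) - P * ex v i.val * ex w (i.val + 1) +
      R * ex v (i.val + 1) * ex w (i.val + 2) + b * v 0 * (ex w (i.val + 1) - ex w (i.val + 2)) +
      c * w 0 * (ex v (i.val + 1) - ex v i.val) = 0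
  v0 : ∃ v ∈ V, v 0 ≠ 0
  w0 : ∃ w ∈ W, w 0 ≠ 0
  vl : ∀ j : Fin n, τ j ≠ 1 → ∃ v ∈ V, v 0 = 0 ∧ v j.succ = 1 ∧ ∀ j' < j, v j'.succ = 0
  wl : ∀ k : Fin n, τ k ≠ 2 → ∃ w ∈ W, w 0 = 0 ∧ w k.succ = 1 ∧ ∀ k' > k, w k'.succ = 0

theorem lemA {b c P R ν : F} {τ : Fin n → Fin 3} {V W : Submodule F (Fin (n + 1) → F)}
    (h : Sp b c P R τ V W) (hn : 1 ≤ n) (hc : c ≠ 0) (hν : ν ≠ 0)
    (hV : ∀ v ∈ V, ex v n = ν * v 0) : False := by
  obtain ⟨v', hv', hv0⟩ := h.v0
  obtain ⟨w', hw', hw0⟩ := h.w0
  have key : ∀ d ≤ n, (∀ v ∈ V, ex v (n - d) = ν * v 0) ∧ (d = 0 ∨ b = R * ν) := by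
    intro d
    induction d with
    | zero => intro _; exact ⟨hV, Or.inl rfl⟩
    | succ d ih =>
      intro hd
      obtain ⟨h1, h2⟩ := ih (by omega)
      obtain ⟨i, hi⟩ : ∃ i : Fin n, i.val + 1 = n - d := ⟨⟨n - d - 1, by omega⟩, by
        show n - d - 1 + 1 = n - d
        omega⟩
      have hi' : i.val = n - (d + 1) := by omega
      have hτ : τ i = 1 := by
        by_contra hτ
        obtain ⟨v, hv, hv0', hvi, -⟩ := h.vl i hτ
        have h3 := h1 v hv
        rw [← hi, ex_eq, hvi, hv0', mul_zero] at h3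
        exact one_ne_zero h3
      obtain ⟨ws, hws, hws0, hwsi, hwsg⟩ := h.wl i (by rw [hτ]; decide)
      have hws2 : ex ws (i.val + 2) = 0 := by
        by_cases hin : i.val + 1 < n
        · have h3 := ex_eq ws ⟨i.val + 1, hin⟩
          have h4 := hwsg ⟨i.val + 1, hin⟩ (by
            rw [gt_iff_lt, Fin.lt_def]
            show i.val < i.val + 1
            omega)
          rw [h4] at h3
          exact h3
        · have : i.val + 2 = n + 1 := by have := i.2; omega
          rw [this, ex_last]
      have heq := h.eq i (by rw [hτ]; decide)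
      have R1 : ∀ v ∈ V, (P - R) * ex v (i.val + 1) - P * ex v i.val + b * v 0 = 0 := by
        intro v hv
        have h3 := heq v hv ws hws
        rw [hws2, ex_eq ws i, hwsi, hws0] at h3
        linear_combination h3
      have R2 : ∀ v ∈ V, ex v i.val = ex v (i.val + 1) := by
        intro v hv
        have h3 := heq v hv w' hw'
        have h4 := R1 v hv
        have h5 : ex w' (i.val + 2) * (R * ex v (i.val + 1) - b * v 0) = 0 := by
          rcases h2 with h2 | h2
          · have : i.val + 2 = n + 1 := by omega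
            rw [this, ex_last, zero_mul]
          · rw [hi, h1 v hv, h2]
            ring
        have h6 : c * w' 0 * (ex v (i.val + 1) - ex v i.val) = 0 := by
          linear_combination h3 - ex w' (i.val + 1) * h4 - h5
        rcases mul_eq_zero.1 h6 with h7 | h7
        · rcases mul_eq_zero.1 h7 with h8 | h8
          · exact absurd h8 hc
          · exact absurd h8 hw0
        · exact (sub_eq_zero.1 h7).symm
      refine ⟨fun v hv => ?_, Or.inr ?_⟩
      · rw [← hi', R2 v hv, hi, h1 v hv]
      · have h3 := R1 v' hv'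
        rw [R2 v' hv', hi, h1 v' hv'] at h3
        have h4 : (b - R * ν) * v' 0 = 0 := by linear_combination h3
        rcases mul_eq_zero.1 h4 with h5 | h5
        · exact sub_eq_zero.1 h5
        · exact absurd h5 hv0
  have h1 := (key n le_rfl).1 v' hv'
  rw [Nat.sub_self, ex_zero] at h1
  exact mul_ne_zero hν hv0 h1.symm

theorem lemB {b c P R ω : F} {τ : Fin n → Fin 3} {V W : Submodule F (Fin (n + 1) → F)}
    (h : Sp b c P R τ V W) (hn : 1 ≤ n) (hb : b ≠ 0) (hω : ω ≠ 0)
    (hW : ∀ w ∈ W, ex w 1 = ω * w 0) : False := by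
  obtain ⟨v', hv', hv0⟩ := h.v0
  obtain ⟨w', hw', hw0⟩ := h.w0
  have key : ∀ d ≤ n, (∀ w ∈ W, ex w (d + 1) = ω * w 0) ∧ (d = 0 ∨ P * ω + c = 0) := by
    intro d
    induction d with
    | zero => intro _; exact ⟨hW, Or.inl rfl⟩
    | succ d ih =>
      intro hd
      obtain ⟨h1, h2⟩ := ih (by omega)
      obtain ⟨i, hi⟩ : ∃ i : Fin n, i.val = d := ⟨⟨d, by omega⟩, rfl⟩
      have hτ : τ i = 2 := by
        by_contra hτ
        obtain ⟨w, hw, hw0', hwi, -⟩ := h.wl i hτ
        have h3 := h1 w hw
        rw [← hi, ex_eq, hwi, hw0', mul_zero] at h3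
        exact one_ne_zero h3
      obtain ⟨vs, hvs, hvs0, hvsi, hvsg⟩ := h.vl i (by rw [hτ]; decide)
      have hvs2 : ex vs i.val = 0 := by
        rcases Nat.eq_zero_or_pos i.val with h3 | h3
        · rw [h3, ex_zero]
        · have h4 := ex_eq vs ⟨i.val - 1, by omega⟩
          have h5 := hvsg ⟨i.val - 1, by omega⟩ (by
            rw [Fin.lt_def]
            show i.val - 1 < i.val
            omega)
          rw [h5] at h4
          have h6 : (⟨i.val - 1, by omega⟩ : Fin n).val + 1 = i.val := by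
            show i.val - 1 + 1 = i.val
            omega
          rw [h6] at h4
          exact h4
      have heq := h.eq i (by rw [hτ]; decide)
      have S1 : ∀ w ∈ W, (P - R) * ex w (i.val + 1) + R * ex w (i.val + 2) + c * w 0 = 0 := by
        intro w hw
        have h3 := heq vs hvs w hw
        rw [hvs2, ex_eq vs i, hvsi, hvs0] at h3
        linear_combination h3
      have S2 : ∀ w ∈ W, ex w (i.val + 2) = ex w (i.val + 1) := by
        intro w hw
        have h3 := heq v' hv' w hw
        have h4 := S1 w hw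
        have h5 : ex v' i.val * (P * ex w (i.val + 1) + c * w 0) = 0 := by
          rcases h2 with h2 | h2
          · rw [hi, h2, ex_zero, zero_mul]
          · have h7 : P * ex w (i.val + 1) + c * w 0 = 0 := by
              rw [hi, h1 w hw]
              linear_combination w 0 * h2
            rw [h7, mul_zero]
        have h6 : b * v' 0 * (ex w (i.val + 1) - ex w (i.val + 2)) = 0 := by
          linear_combination h3 - ex v' (i.val + 1) * h4 + h5
        rcases mul_eq_zero.1 h6 with h7 | h7
        · rcases mul_eq_zero.1 h7 with h8 | h8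
          · exact absurd h8 hb
          · exact absurd h8 hv0
        · exact (sub_eq_zero.1 h7).symm
      refine ⟨fun w hw => ?_, Or.inr ?_⟩
      · have h3 := S2 w hw
        rw [hi, h1 w hw] at h3
        exact h3
      · have h3 := S1 w' hw'
        rw [S2 w' hw', hi, h1 w' hw'] at h3
        have h4 : (P * ω + c) * w' 0 = 0 := by linear_combination h3
        rcases mul_eq_zero.1 h4 with h5 | h5
        · exact h5
        · exact absurd h5 hw0
  have h1 := (key n le_rfl).1 w' hw'
  rw [ex_last] at h1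
  exact mul_ne_zero hω hw0 h1.symm

end

/-- **WA.** -/
theorem holds (h1 : S_tr.{u}) (h2 : S_df.{u}) : S_wa.{u} := by
  intro F _ e a b c P R T hT hP hPR hA n hn
  refine ⟨X n, Y n, Z n, fun hSL => ?_⟩
  have hPR' : P - R ≠ 0 := sub_ne_zero.2 hPR
  obtain ⟨s, hs⟩ : ∃ s : F, s * (P - R) = a + R := ⟨(a + R) / (P - R), div_mul_cancel₀ _ hPR'⟩
  have hSL2 := h2 F (n + 1) _ (p s) q r (n + 1) hSL
  have hN : (fun i j l => ∑ x, ∑ y, ∑ z, p s i x * q j y * r l z * T (X n x) (Y n y) (Z n z)) =
      N (n := n) e a b c P R s := by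
    funext i j k
    rw [sum3]
    unfold N
    simp only [T_eq hT]
  rw [hN] at hSL2
  obtain ⟨τ, V, W, a0, ai, v0, w0, vl, -, wl, -⟩ := h1 F n (N e a b c P R s) (fun _ => P - R)
    (fun _ => hPR') (by
      intro i j k hkj
      rw [N_sss]
      have hkj' : k.val ≤ j.val := hkj
      by_cases hc : i = j ∧ j = k
      · obtain ⟨rfl, rfl⟩ := hc
        rw [if_pos ⟨rfl, rfl⟩, ind_true (F := F) (p := i.val + 1 = i.val + 1) rfl,
          ind_false (F := F) (p := i.val + 1 + 1 = i.val + 1) (by omega),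
          ind_false (F := F) (p := i.val = i.val + 1) (by omega)]
        ring
      · rw [if_neg hc]
        by_cases hji : j.val + 1 = i.val + 1
        · have hki : ¬ (k.val + 1 = i.val + 1) := by
            intro hki
            exact hc ⟨Fin.ext (by omega), Fin.ext (by omega)⟩
          rw [ind_false (F := F) (p := k.val + 1 = i.val + 1) hki,
            ind_false (F := F) (p := k.val = i.val + 1) (by omega)]
          ring
        · rw [ind_false (F := F) (p := j.val + 1 = i.val + 1) hji]
          by_cases hji2 : j.val + 1 + 1 = i.val + 1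
          · rw [ind_false (F := F) (p := k.val + 1 = i.val + 1) (by omega)]
            ring
          · rw [ind_false (F := F) (p := j.val + 1 + 1 = i.val + 1) hji2]
            ring)
    (fun j k _ => N_0ss e a b c P R s hs hn j k) hSL2
  have hSp : Sp b c P R τ V W := by
    refine ⟨fun i hi v hv w hw => ?_, v0, w0, vl, wl⟩
    rw [← form_s e a b c P R s i v w]
    exact ai i hi v hv w hw
  have h0 : ∀ v ∈ V, ∀ w ∈ W, (e + c) * v 0 * w 0 + (- s * b) * v 0 * ex w 1 +
      (- (1 + s) * c) * ex v n * w 0 = 0 := by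
    intro v hv w hw
    rw [← form_0 e a b c P R s hs hn v w]
    exact a0 v hv w hw
  obtain ⟨vs, hvs, hvs0⟩ := v0
  obtain ⟨ws, hws, hws0⟩ := w0
  by_cases g1 : - s * b = 0
  · by_cases g2 : - (1 + s) * c = 0
    · have h3 := h0 vs hvs ws hws
      rw [g1, g2] at h3
      have h4 : (e + c) * vs 0 * ws 0 = 0 := by linear_combination h3
      exact mul_ne_zero (mul_ne_zero hA hvs0) hws0 h4
    · have hc0 : c ≠ 0 := right_ne_zero_of_mul g2
      refine lemA hSp hn hc0 (ν := - (e + c) / (- (1 + s) * c))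
        (div_ne_zero (neg_ne_zero.2 hA) g2) (fun v hv => ?_)
      have h3 := h0 v hv ws hws
      rw [g1] at h3
      have h4 : ws 0 * ((e + c) * v 0 + - (1 + s) * c * ex v n) = 0 := by linear_combination h3
      rcases mul_eq_zero.1 h4 with h5 | h5
      · exact absurd h5 hws0
      · rw [div_mul_eq_mul_div, eq_div_iff g2]
        linear_combination h5
  · have hb0 : b ≠ 0 := right_ne_zero_of_mul g1
    by_cases g2 : - (1 + s) * c = 0
    · refine lemB hSp hn hb0 (ω := - (e + c) / (- s * b))
        (div_ne_zero (neg_ne_zero.2 hA) g1) (fun w hw => ?_)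
      have h3 := h0 vs hvs w hw
      rw [g2] at h3
      have h4 : vs 0 * ((e + c) * w 0 + - s * b * ex w 1) = 0 := by linear_combination h3
      rcases mul_eq_zero.1 h4 with h5 | h5
      · exact absurd h5 hvs0
      · rw [div_mul_eq_mul_div, eq_div_iff g1]
        linear_combination h5
    · have hc0 : c ≠ 0 := right_ne_zero_of_mul g2
      have hv : ∀ v ∈ V, ex v n = ex vs n / vs 0 * v 0 := by
        intro v hv
        have hmem : v - (v 0 / vs 0) • vs ∈ V := V.sub_mem hv (V.smul_mem _ hvs)
        have h3 := h0 _ hmem ws hws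
        have h4 : (v - (v 0 / vs 0) • vs) 0 = 0 := by
          simp only [Pi.sub_apply, Pi.smul_apply, smul_eq_mul]
          rw [div_mul_cancel₀ _ hvs0, sub_self]
        rw [h4, ex_sub] at h3
        have h5 : (- (1 + s) * c * ws 0) * (ex v n - v 0 / vs 0 * ex vs n) = 0 := by
          linear_combination h3
        rcases mul_eq_zero.1 h5 with h6 | h6
        · exact absurd h6 (mul_ne_zero g2 hws0)
        · rw [sub_eq_zero.1 h6]
          ring
      have hw : ∀ w ∈ W, ex w 1 = ex ws 1 / ws 0 * w 0 := by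
        intro w hw
        have hmem : w - (w 0 / ws 0) • ws ∈ W := W.sub_mem hw (W.smul_mem _ hws)
        have h3 := h0 vs hvs _ hmem
        have h4 : (w - (w 0 / ws 0) • ws) 0 = 0 := by
          simp only [Pi.sub_apply, Pi.smul_apply, smul_eq_mul]
          rw [div_mul_cancel₀ _ hws0, sub_self]
        rw [h4, ex_sub] at h3
        have h5 : (- s * b * vs 0) * (ex w 1 - w 0 / ws 0 * ex ws 1) = 0 := by
          linear_combination h3
        rcases mul_eq_zero.1 h5 with h6 | h6
        · exact absurd h6 (mul_ne_zero g1 hvs0)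
        · rw [sub_eq_zero.1 h6]
          ring
      by_cases hν : ex vs n / vs 0 = 0
      · by_cases hω : ex ws 1 / ws 0 = 0
        · have h3 := h0 vs hvs ws hws
          rw [hv vs hvs, hw ws hws, hν, hω] at h3
          have h4 : (e + c) * vs 0 * ws 0 = 0 := by linear_combination h3
          exact mul_ne_zero (mul_ne_zero hA hvs0) hws0 h4
        · exact lemB hSp hn hb0 hω hw
      · exact lemA hSp hn hc0 hν hv

end Pool.Agent.H997.FF_WA
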