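import Pool.Agent.H812.SF.Stm2

set_option autoImplicit false

namespace Pool.Agent.H997.SfPAR

open Pool.Agent.N229.SC Pool.Agent.H812.SF

theorem no_zero (x c : ℕ → ℝ) (hx : ∀ m, x (m + 2) = c m * x (m + 1) - x m) (k : ℕ)
    (h0 : x k = 0) (h1 : x (k + 1) = 0) : ∀ j, x (k + j) = 0 ∧ x (k + j + 1) = 0 := by
  intro j
  induction j with
  | zero => exact ⟨h0, h1⟩
  | succ j ih =>
    refine ⟨ih.2, ?_⟩
    have h := hx (k + j)
    rw [ih.1, ih.2] at h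
    have e : k + (j + 1) + 1 = k + j + 2 := by ring
    rw [e, h]
    ring

theorem proof_PAR (hD : S_DYN) (hN : S_N1) : S_PAR := by
  intro ε hε hε9
  obtain ⟨φ, hφ⟩ : ∃ φ : ℝ, φ = (1 + Real.sqrt 5) / 2 := ⟨_, rfl⟩
  have h5 : Real.sqrt 5 ^ 2 = 5 := Real.sq_sqrt (by norm_num)
  have h5a : (2236 : ℝ) / 1000 ≤ Real.sqrt 5 := Real.le_sqrt_of_sq_le (by norm_num)
  have h5b : Real.sqrt 5 ≤ 22361 / 10000 := by
    rw [Real.sqrt_le_left (by norm_num)]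
    norm_num
  have hφ2 : φ ^ 2 = φ + 1 := by
    rw [hφ]
    nlinarith
  have hφ0 : 0 < φ := by
    rw [hφ]
    linarith
  obtain ⟨δ, hδ, hδ4, L, H⟩ := hD φ ε hφ2 hφ0 hε (by linarith)
  refine ⟨max 10000 (2 * (L + 5) / δ), fun ρ hρ h1 => ?_⟩
  have hρ1 : (10000 : ℝ) ≤ ρ := (le_max_left _ _).trans hρ
  have hρ2 : 2 * ((L : ℝ) + 5) / δ ≤ ρ := (le_max_right _ _).trans hρ
  have hρ0 : 0 < ρ := by linarith
  obtain ⟨hrec, ⟨C, hC⟩, hpos⟩ := hN ρ hρ0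
  obtain ⟨x, hxd⟩ : ∃ x : ℕ → ℝ, x = fun m => Fb ρ m := ⟨_, rfl⟩
  obtain ⟨c, hcd⟩ : ∃ c : ℕ → ℝ, c = fun m : ℕ => 2 * ((m : ℝ) + 1) / ρ := ⟨_, rfl⟩
  have hx : ∀ m, x (m + 2) = c m * x (m + 1) - x m := by
    intro m
    rw [hxd, hcd]
    have := hrec m
    simp only
    linarith
  have hnz : ∀ k, ¬ (x k = 0 ∧ x (k + 1) = 0) := by
    rintro k ⟨h2, h3⟩
    obtain ⟨j, hj⟩ := exists_nat_ge ρ
    have h4 := (no_zero x c hx k h2 h3 j).1
    have h6 := (hpos (k + j) (by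
      push_cast
      have : (0 : ℝ) ≤ k := Nat.cast_nonneg k
      linarith)).1
    rw [hxd] at h4
    simp only at h4
    rw [h4] at h6
    exact lt_irrefl _ h6
  obtain ⟨M, hM⟩ : ∃ M : ℕ, M = ⌈ρ * (φ + δ) / 2⌉₊ := ⟨_, rfl⟩
  have hM1 : ρ * (φ + δ) / 2 ≤ M := by
    rw [hM]
    exact Nat.le_ceil _
  have hM2 : (M : ℝ) < ρ * (φ + δ) / 2 + 1 := by
    rw [hM]
    exact Nat.ceil_lt_add_one (by positivity)
  have hLδ : 2 * ((L : ℝ) + 5) ≤ δ * ρ := by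
    rw [div_le_iff₀ hδ] at hρ2
    linarith
  have hc : ∀ m, M ≤ m → m ≤ M + L → φ + δ ≤ c m ∧ c m ≤ φ + 2 * δ := by
    intro m hm1 hm2
    have hm1' : (M : ℝ) ≤ m := by exact_mod_cast hm1
    have hm2' : (m : ℝ) ≤ M + L := by exact_mod_cast hm2
    rw [hcd]
    constructor
    · show φ + δ ≤ 2 * ((m : ℝ) + 1) / ρ
      rw [le_div_iff₀ hρ0]
      linarith
    · show 2 * ((m : ℝ) + 1) / ρ ≤ φ + 2 * δ
      rw [div_le_iff₀ hρ0]
      nlinarith
  have hor : x M ≠ 0 ∨ x (M + 1) ≠ 0 := by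
    by_contra h
    push Not at h
    exact hnz M h
  obtain ⟨n, hn1, hn2, hn3, hn4, hn5⟩ := H c x M hc hx hor
  have hx1 : x 1 = 0 := by
    rw [hxd]
    exact h1
  have hx2 : x 2 ≠ 0 := fun h => hnz 1 ⟨hx1, h⟩
  have hcn := hc n hn1 hn2
  rw [hcd] at hcn
  have hcn1 : φ + δ ≤ 2 * ((n : ℝ) + 1) / ρ := hcn.1
  have hcn2 : 2 * ((n : ℝ) + 1) / ρ ≤ φ + 2 * δ := hcn.2
  rw [le_div_iff₀ hρ0] at hcn1
  rw [div_le_iff₀ hρ0] at hcn2
  have hCx : ∀ m, |x m| ≤ C := by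
    intro m
    rw [hxd]
    exact hC m
  have hC0 : 0 ≤ C := (abs_nonneg _).trans (hCx 0)
  refine ⟨⟨ρ, n, fun i => -(x (n + i) / x (n + 1)), fun i => -(x (1 + i) / x 2)⟩, ?_, rfl, ?_,
    C / |x (n + 1)| + C / |x 2|, ?_⟩
  · refine ⟨hρ1, ?_, ?_, ?_, ?_, ?_, ?_, ?_, ?_, ?_⟩
    · show 4 / 5 ≤ (n : ℝ) / ρ
      rw [le_div_iff₀ hρ0]
      have hn1' : (M : ℝ) ≤ n := by exact_mod_cast hn1
      have h6 : 8 / 5 ≤ φ + δ := by
        rw [hφ]
        linarith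
      nlinarith
    · show (n : ℝ) / ρ ≤ 41 / 50
      rw [div_le_iff₀ hρ0]
      have h6 : φ + 2 * δ ≤ 82 / 50 := by
        rw [hφ]
        linarith
      nlinarith
    · show -(x (n + 1) / x (n + 1)) = -1
      rw [div_self hn3]
    · show -(x (1 + 1) / x 2) = -1
      rw [div_self hx2]
    · show 0 < -(x (n + 0) / x (n + 1))
      exact hε.trans_le hn4
    · show -(x (n + 0) / x (n + 1)) ≤ 31 / 10 ^ 10
      refine hn5.trans ?_
      norm_num at hε9 ⊢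
      linarith
    · show |-(x (1 + 0) / x 2)| ≤ -(x (n + 0) / x (n + 1)) / 10 ^ 6
      rw [show (1 + 0 : ℕ) = 1 from rfl, hx1, zero_div, neg_zero, abs_zero]
      have : 0 ≤ -(x (n + 0) / x (n + 1)) := hε.le.trans hn4
      positivity
    · intro i
      show -(x (n + (i + 2)) / x (n + 1)) = 2 * ((n : ℝ) + i + 1) / ρ *
        -(x (n + (i + 1)) / x (n + 1)) - -(x (n + i) / x (n + 1))
      have h6 := hx (n + i)
      rw [hcd] at h6
      simp only at h6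
      push_cast at h6
      rw [show n + (i + 2) = n + i + 2 by ring, show n + (i + 1) = n + i + 1 by ring, h6]
      ring
    · intro i
      show -(x (1 + (i + 2)) / x 2) = 2 * ((i : ℝ) + 2) / ρ * -(x (1 + (i + 1)) / x 2) -
        -(x (1 + i) / x 2)
      have h6 := hx (1 + i)
      rw [hcd] at h6
      simp only at h6
      push_cast at h6
      rw [show 1 + (i + 2) = 1 + i + 2 by ring, show 1 + (i + 1) = 1 + i + 1 by ring, h6]
      ring
  · exact hn5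
  · intro i
    have e1 : 0 < |x (n + 1)| := abs_pos.2 hn3
    have e2 : 0 < |x 2| := abs_pos.2 hx2
    have e3 : 0 ≤ C / |x (n + 1)| := by positivity
    have e4 : 0 ≤ C / |x 2| := by positivity
    constructor
    · show |-(x (n + i) / x (n + 1))| ≤ C / |x (n + 1)| + C / |x 2|
      rw [abs_neg, abs_div]
      have := div_le_div_of_nonneg_right (hCx (n + i)) e1.le
      linarith
    · show |-(x (1 + i) / x 2)| ≤ C / |x (n + 1)| + C / |x 2|
      rw [abs_neg, abs_div]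
      have := div_le_div_of_nonneg_right (hCx (1 + i)) e2.le
      linarith

end Pool.Agent.H997.SfPAR
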