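import Pool.Agent.H979.FR.Stm

set_option autoImplicit false
set_option linter.unusedVariables false
set_option linter.unusedSectionVars false

open MeasureTheory ProbabilityTheory Finset
open scoped ENNReal NNReal

namespace Pool.Agent.H997.FRCL

open Pool.Agent.TH994.LR

section Det

variable {V : Type*} [DecidableEq V]

/-- some set `U` with `L ⊆ U ⊆ R`, `U ∩ B = ∅`, is closed in `R` -/
def Ev (B R L : Finset V) (n : V → V → Bool) : Prop :=
  ∃ U : Finset V, L ⊆ U ∧ U ⊆ R ∧ Disjoint U B ∧ ∀ a ∈ U, ∀ y ∈ R, y ∉ U → n a y = false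

/-- the new set of points to be contained in `U` -/
def nx (R L : Finset V) (x : V) (m : V → Bool) : Finset V :=
  (L ∪ R.filter (fun y => m y = true)).erase x

theorem nx_subset {R L : Finset V} (hL : L ⊆ R) (x : V) (m : V → Bool) : nx R L x m ⊆ R.erase x :=
  Finset.erase_subset_erase x (Finset.union_subset hL (Finset.filter_subset _ _))

theorem ev_step {B R L : Finset V} {x : V} (hL : L ⊆ R) (hx : x ∈ L) (hB : x ∉ B)
    (n : V → V → Bool) :
    Ev B R L n ↔ Ev B (R.erase x) (nx R L x (n x)) n := by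
  constructor
  · rintro ⟨U, h1, h2, h3, h4⟩
    refine ⟨U.erase x, ?_, Finset.erase_subset_erase x h2, ?_, ?_⟩
    · intro y hy
      rw [nx, Finset.mem_erase, Finset.mem_union, Finset.mem_filter] at hy
      refine Finset.mem_erase.2 ⟨hy.1, ?_⟩
      rcases hy.2 with hy | hy
      · exact h1 hy
      · by_contra hc
        have := h4 x (h1 hx) y hy.1 hc
        rw [hy.2] at this
        exact absurd this (by decide)
    · exact Finset.disjoint_of_subset_left (Finset.erase_subset x U) h3
    · intro a ha y hy hyU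
      have ha' := Finset.mem_erase.1 ha
      have hy' := Finset.mem_erase.1 hy
      exact h4 a ha'.2 y hy'.2 (fun h => hyU (Finset.mem_erase.2 ⟨hy'.1, h⟩))
  · rintro ⟨U, h1, h2, h3, h4⟩
    refine ⟨insert x U, ?_, ?_, ?_, ?_⟩
    · intro y hy
      by_cases hyx : y = x
      · rw [hyx]; exact Finset.mem_insert_self _ _
      · exact Finset.mem_insert_of_mem (h1 (by
          rw [nx]; exact Finset.mem_erase.2 ⟨hyx, Finset.mem_union_left _ hy⟩))
    · exact Finset.insert_subset (hL hx) (h2.trans (Finset.erase_subset _ _))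
    · exact Finset.disjoint_insert_left.2 ⟨hB, h3⟩
    · intro a ha y hy hyU
      have hyx : y ≠ x := fun h => hyU (h ▸ Finset.mem_insert_self _ _)
      have hyU' : y ∉ U := fun h => hyU (Finset.mem_insert_of_mem h)
      rcases Finset.mem_insert.1 ha with rfl | ha
      · by_contra hc
        have hc' : n a y = true := by simpa using hc
        exact hyU' (h1 (by
          rw [nx]
          exact Finset.mem_erase.2
            ⟨hyx, Finset.mem_union_right _ (Finset.mem_filter.2 ⟨hy, hc'⟩)⟩))
      · exact h4 a ha y (Finset.mem_erase.2 ⟨hyx, hy⟩) hyU'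

theorem ev_imp {B R L : Finset V} {n n' : V → V → Bool}
    (h : ∀ a ∈ R, ∀ y ∈ R, n a y = n' a y) (h' : Ev B R L n) : Ev B R L n' := by
  obtain ⟨U, h1, h2, h3, h4⟩ := h'
  exact ⟨U, h1, h2, h3, fun a ha y hy hyU => by rw [← h a (h2 ha) y hy]; exact h4 a ha y hy hyU⟩

theorem ev_congr {B R L : Finset V} {n n' : V → V → Bool}
    (h : ∀ a ∈ R, ∀ y ∈ R, n a y = n' a y) : Ev B R L n ↔ Ev B R L n' :=
  ⟨ev_imp h, ev_imp fun a ha y hy => (h a ha y hy).symm⟩

open Classical in
/-- the largest closed subset of `R` not meeting `B` -/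
noncomputable def Us (B R : Finset V) (n : V → V → Bool) : Finset V :=
  R.filter (fun v => Ev B R {v} n)

theorem mem_Us {B R : Finset V} {n : V → V → Bool} {v : V} :
    v ∈ Us B R n ↔ v ∈ R ∧ Ev B R {v} n := by
  classical
  exact Finset.mem_filter

theorem ev_iff {B R L : Finset V} {n : V → V → Bool} : Ev B R L n ↔ L ⊆ Us B R n := by
  constructor
  · rintro ⟨U, h1, h2, h3, h4⟩ v hv
    exact mem_Us.2 ⟨h2 (h1 hv), U, Finset.singleton_subset_iff.2 (h1 hv), h2, h3, h4⟩
  · intro h
    refine ⟨Us B R n, h, fun v hv => (mem_Us.1 hv).1, ?_, ?_⟩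
    · rw [Finset.disjoint_left]
      intro v hv
      obtain ⟨_, U, h1, h2, h3, h4⟩ := mem_Us.1 hv
      exact Finset.disjoint_left.1 h3 (Finset.singleton_subset_iff.1 h1)
    · intro a ha y hy hyU
      obtain ⟨_, U, h1, h2, h3, h4⟩ := mem_Us.1 ha
      refine h4 a (Finset.singleton_subset_iff.1 h1) y hy fun hc => hyU ?_
      exact mem_Us.2 ⟨hy, U, Finset.singleton_subset_iff.2 hc, h2, h3, h4⟩

theorem us_congr {B R : Finset V} {n n' : V → V → Bool}
    (h : ∀ a ∈ R, ∀ y ∈ R, n a y = n' a y) : Us B R n = Us B R n' := by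
  ext v
  rw [mem_Us, mem_Us, ev_congr h]

theorem nx_sub_iff {R L U : Finset V} (x : V) (m : V → Bool) :
    nx R L x m ⊆ U ↔ L.erase x ⊆ U ∧ ∀ y ∈ R.erase x \ U, m y = false := by
  constructor
  · intro h
    refine ⟨fun y hy => h ?_, fun y hy => ?_⟩
    · rw [nx]
      exact Finset.mem_erase.2 ⟨(Finset.mem_erase.1 hy).1,
        Finset.mem_union_left _ (Finset.mem_erase.1 hy).2⟩
    · obtain ⟨hy1, hy2⟩ := Finset.mem_sdiff.1 hy
      obtain ⟨hyx, hyR⟩ := Finset.mem_erase.1 hy1
      by_contra hc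
      have hc' : m y = true := by simpa using hc
      refine hy2 (h ?_)
      rw [nx]
      exact Finset.mem_erase.2 ⟨hyx, Finset.mem_union_right _ (Finset.mem_filter.2 ⟨hyR, hc'⟩)⟩
  · rintro ⟨h1, h2⟩ y hy
    rw [nx, Finset.mem_erase, Finset.mem_union, Finset.mem_filter] at hy
    rcases hy.2 with h | h
    · exact h1 (Finset.mem_erase.2 ⟨hy.1, h⟩)
    · by_contra hc
      have := h2 y (Finset.mem_sdiff.2 ⟨Finset.mem_erase.2 ⟨hy.1, h.1⟩, hc⟩)
      rw [h.2] at this
      exact absurd this (by decide)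

end Det

theorem resample' {ι M : Type*} [Fintype ι] [DecidableEq ι] [Fintype M] (p : ι → M → ℝ) (x : ι)
    (hp : ∑ m, p x m = 1) (Ψ : (ι → M) → ℝ) :
    ∑ n : ι → M, (∏ v, p v (n v)) * Ψ n =
      ∑ n : ι → M, (∏ v, p v (n v)) * ∑ m, p x m * Ψ (Function.update n x m) := by
  have hinv : Function.Involutive (fun z : (ι → M) × M => (Function.update z.1 x z.2, z.1 x)) := by
    rintro ⟨n, m⟩
    simp
  have hsplit : ∀ n : ι → M, ∏ v, p v (n v) = p x (n x) * ∏ v ∈ univ.erase x, p v (n v) := by
    intro n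
    rw [Finset.mul_prod_erase univ (fun v => p v (n v)) (mem_univ x)]
  have h1 : ∑ n : ι → M, (∏ v, p v (n v)) * Ψ n =
      ∑ z : (ι → M) × M, (∏ v, p v (z.1 v)) * p x z.2 * Ψ z.1 := by
    rw [Fintype.sum_prod_type]
    refine Finset.sum_congr rfl fun n _ => ?_
    have h : ∀ m ∈ (univ : Finset M), (∏ v, p v (n v)) * p x m * Ψ n =
        ((∏ v, p v (n v)) * Ψ n) * p x m := fun m _ => by ring
    rw [Finset.sum_congr rfl h, ← Finset.mul_sum, hp, mul_one]
  have h2 : ∑ n : ι → M, (∏ v, p v (n v)) * ∑ m, p x m * Ψ (Function.update n x m) =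
      ∑ z : (ι → M) × M, (∏ v, p v (z.1 v)) * p x z.2 * Ψ (Function.update z.1 x z.2) := by
    rw [Fintype.sum_prod_type]
    refine Finset.sum_congr rfl fun n _ => ?_
    rw [Finset.mul_sum]
    exact Finset.sum_congr rfl fun m _ => by ring
  rw [h1, h2, ← Equiv.sum_comp hinv.toPerm]
  refine Finset.sum_congr rfl fun z _ => ?_
  obtain ⟨n, m⟩ := z
  simp only [Function.Involutive.coe_toPerm]
  rw [hsplit, hsplit n]
  have h : ∏ v ∈ univ.erase x, p v (Function.update n x m v) = ∏ v ∈ univ.erase x, p v (n v) :=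
    Finset.prod_congr rfl fun v hv => by
      rw [Function.update_of_ne (Finset.ne_of_mem_erase hv)]
  rw [h, Function.update_self]
  ring

section Fin

variable {V : Type*} [DecidableEq V] [Fintype V]

open Classical in
theorem edge1 (q : Sym2 V → ℝ) (x : V) (T : Finset V) (g : (Sym2 V → Bool) → ℝ)
    (hg : ∀ c y b, g (Function.update c s(x, y) b) = g c) :
    ∑ c, pr q c * (g c * ∏ y ∈ T, q s(x, y)) =
      ∑ c, pr q c * (g c * if ∀ y ∈ T, c s(x, y) = false then (1 : ℝ) else 0) := by
  induction T using Finset.induction_on with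
  | empty =>
    refine Finset.sum_congr rfl fun c _ => ?_
    rw [Finset.prod_empty, if_pos (fun y hy => absurd hy (Finset.notMem_empty y))]
  | insert y0 T hy0 ih =>
    have e1 : ∀ c : Sym2 V → Bool,
        pr q c * (g c * if ∀ y ∈ insert y0 T, c s(x, y) = false then (1 : ℝ) else 0) =
        pr q c * ((fun b : Bool => if b = true then (0 : ℝ) else 1) (c s(x, y0)) *
          (fun c : Sym2 V → Bool => g c * if ∀ y ∈ T, c s(x, y) = false then (1 : ℝ) else 0) c) := by
      intro c
      rcases hc : c s(x, y0) with _ | _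
      · by_cases h : ∀ y ∈ T, c s(x, y) = false
        · have h' : ∀ y ∈ insert y0 T, c s(x, y) = false := by
            intro y hy
            rcases Finset.mem_insert.1 hy with rfl | hy
            · exact hc
            · exact h y hy
          simp only [if_pos h, if_pos h']
          simp
        · have h' : ¬ ∀ y ∈ insert y0 T, c s(x, y) = false := fun h' =>
            h fun y hy => h' y (Finset.mem_insert_of_mem hy)
          simp only [if_neg h, if_neg h']
          simp
      · have h' : ¬ ∀ y ∈ insert y0 T, c s(x, y) = false := fun h' => by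
          have := h' y0 (Finset.mem_insert_self _ _)
          rw [hc] at this
          exact absurd this (by decide)
        simp only [if_neg h']
        simp
    have hX : ∀ (c : Sym2 V → Bool) (b : Bool),
        (fun c : Sym2 V → Bool => g c * if ∀ y ∈ T, c s(x, y) = false then (1 : ℝ) else 0)
          (Function.update c s(x, y0) b) =
        (fun c : Sym2 V → Bool => g c * if ∀ y ∈ T, c s(x, y) = false then (1 : ℝ) else 0) c := by
      intro c b
      have hne : ∀ y ∈ T, Function.update c s(x, y0) b s(x, y) = c s(x, y) := by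
        intro y hy
        refine Function.update_of_ne ?_ _ _
        intro h
        rw [Sym2.eq_iff] at h
        have : y = y0 := by
          rcases h with h | h
          · exact h.2
          · rw [h.2, ← h.1]
        exact hy0 (this ▸ hy)
      have hiff : (∀ y ∈ T, Function.update c s(x, y0) b s(x, y) = false) ↔
          ∀ y ∈ T, c s(x, y) = false :=
        ⟨fun h y hy => by rw [← hne y hy]; exact h y hy,
          fun h y hy => by rw [hne y hy]; exact h y hy⟩
      simp only [hg]
      by_cases h : ∀ y ∈ T, c s(x, y) = false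
      · rw [if_pos h, if_pos (hiff.2 h)]
      · rw [if_neg h, if_neg (fun h' => h (hiff.1 h'))]
    rw [Finset.sum_congr rfl (fun c _ => e1 c),
      resample q s(x, y0) (fun b : Bool => if b = true then (0 : ℝ) else 1)
      (fun c : Sym2 V → Bool => g c * if ∀ y ∈ T, c s(x, y) = false then (1 : ℝ) else 0) hX]
    have e2 : ∑ c, pr q c * (g c * ∏ y ∈ insert y0 T, q s(x, y)) =
        q s(x, y0) * ∑ c, pr q c * (g c * ∏ y ∈ T, q s(x, y)) := by
      rw [Finset.mul_sum]
      refine Finset.sum_congr rfl fun c _ => ?_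
      rw [Finset.prod_insert hy0]
      ring
    rw [e2, ih]
    simp

open Classical in
theorem edge2 (q : Sym2 V → ℝ) (x : V) (H : (Sym2 V → Bool) → Finset V)
    (g : (Sym2 V → Bool) → ℝ) (hH : ∀ c y b, H (Function.update c s(x, y) b) = H c)
    (hg : ∀ c y b, g (Function.update c s(x, y) b) = g c) :
    ∑ c, pr q c * (g c * ∏ y ∈ H c, q s(x, y)) =
      ∑ c, pr q c * (g c * if ∀ y ∈ H c, c s(x, y) = false then (1 : ℝ) else 0) := by
  have h : ∀ T : Finset V,
      ∑ c, pr q c * ((g c * if H c = T then (1 : ℝ) else 0) * ∏ y ∈ T, q s(x, y)) =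
      ∑ c, pr q c * ((g c * if H c = T then (1 : ℝ) else 0) *
        if ∀ y ∈ T, c s(x, y) = false then (1 : ℝ) else 0) := fun T =>
    edge1 q x T (fun c => g c * if H c = T then (1 : ℝ) else 0)
      (fun c y b => by simp only [hg, hH])
  have key : ∀ (F : (Sym2 V → Bool) → Finset V → ℝ) (c : Sym2 V → Bool),
      pr q c * (g c * F c (H c)) =
        ∑ T : Finset V, pr q c * ((g c * if H c = T then (1 : ℝ) else 0) * F c T) := by
    intro F c
    rw [Finset.sum_eq_single (H c)]
    · rw [if_pos rfl, mul_one]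
    · intro T _ hT
      rw [if_neg (Ne.symm hT)]
      simp
    · intro h
      exact absurd (mem_univ _) h
  rw [Finset.sum_congr rfl (fun c _ => key (fun c T => ∏ y ∈ T, q s(x, y)) c),
    Finset.sum_congr rfl (fun c _ => key
      (fun c T => if ∀ y ∈ T, c s(x, y) = false then (1 : ℝ) else 0) c),
    Finset.sum_comm, Finset.sum_comm (f := fun c T => pr q c *
      ((g c * if H c = T then (1 : ℝ) else 0) *
        if ∀ y ∈ T, c s(x, y) = false then (1 : ℝ) else 0))]
  exact Finset.sum_congr rfl fun T _ => h T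

theorem sum_prod_one {M : Type*} [Fintype M] (p : V → M → ℝ) (hp1 : ∀ x, ∑ m, p x m = 1) :
    ∑ n : V → M, ∏ v, p v (n v) = 1 := by
  have h := Finset.prod_univ_sum (fun _ : V => (univ : Finset M)) p
  rw [Fintype.piFinset_univ] at h
  rw [← h]
  exact Finset.prod_eq_one fun v _ => hp1 v

open Classical in
theorem fin_cl (B : Finset V) (p : V → (V → Bool) → ℝ) (hp0 : ∀ x m, 0 ≤ p x m)
    (hp1 : ∀ x, ∑ m, p x m = 1) (q : Sym2 V → ℝ) (hq : ∀ e, 0 ≤ q e ∧ q e ≤ 1)
    (hpq : ∀ (x : V) (S : Finset V), x ∉ S →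
      ∑ m, p x m * (if ∀ y ∈ S, m y = false then (1 : ℝ) else 0) ≤ ∏ y ∈ S, q s(x, y)) :
    ∀ (k : ℕ) (R L : Finset V), R.card = k → L ⊆ R →
      ∑ n : V → V → Bool, (∏ v, p v (n v)) * (if Ev B R L n then (1 : ℝ) else 0) ≤
      ∑ c : Sym2 V → Bool, pr q c *
        (if Ev B R L (fun a y => c s(a, y)) then (1 : ℝ) else 0) := by
  intro k
  induction k using Nat.strong_induction_on with
  | _ k ih =>
  intro R L hRk hL
  rcases L.eq_empty_or_nonempty with rfl | ⟨x, hx⟩
  · have hE : ∀ n : V → V → Bool, Ev B R ∅ n := fun n =>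
      ⟨∅, Finset.Subset.refl _, Finset.empty_subset _, Finset.disjoint_empty_left _,
        fun a ha => absurd ha (Finset.notMem_empty a)⟩
    have e1 : ∑ n : V → V → Bool, (∏ v, p v (n v)) * (if Ev B R ∅ n then (1 : ℝ) else 0) = 1 :=
      (Finset.sum_congr rfl fun n _ => by rw [if_pos (hE n), mul_one]).trans
        (sum_prod_one p hp1)
    have e2 : ∑ c : Sym2 V → Bool, pr q c *
        (if Ev B R ∅ (fun a y => c s(a, y)) then (1 : ℝ) else 0) = 1 :=
      (Finset.sum_congr rfl fun n _ => by rw [if_pos (hE _), mul_one]).trans (sum_pr q)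
    rw [e1, e2]
  by_cases hB : x ∈ B
  · have hE : ∀ n : V → V → Bool, ¬ Ev B R L n := by
      rintro n ⟨U, h1, h2, h3, h4⟩
      exact Finset.disjoint_left.1 h3 (h1 hx) hB
    have e1 : ∑ n : V → V → Bool, (∏ v, p v (n v)) * (if Ev B R L n then (1 : ℝ) else 0) = 0 :=
      Finset.sum_eq_zero fun n _ => by rw [if_neg (hE n), mul_zero]
    rw [e1]
    exact Finset.sum_nonneg fun c _ => mul_nonneg (pr_nonneg hq c) (by split_ifs <;> norm_num)
  have hxR : x ∈ R := hL hx
  have hcard : (R.erase x).card < k := by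
    rw [← hRk]
    exact Finset.card_erase_lt_of_mem hxR
  -- step 1
  have s1 : ∑ n : V → V → Bool, (∏ v, p v (n v)) * (if Ev B R L n then (1 : ℝ) else 0) =
      ∑ m, p x m * ∑ n : V → V → Bool, (∏ v, p v (n v)) *
        (if Ev B (R.erase x) (nx R L x m) n then (1 : ℝ) else 0) := by
    rw [resample' p x (hp1 x)]
    have e : ∀ (n : V → V → Bool) (m : V → Bool),
        (if Ev B R L (Function.update n x m) then (1 : ℝ) else 0) =
        if Ev B (R.erase x) (nx R L x m) n then (1 : ℝ) else 0 := by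
      intro n m
      have h1 := ev_step hL hx hB (Function.update n x m)
      rw [Function.update_self] at h1
      have h2 : Ev B (R.erase x) (nx R L x m) (Function.update n x m) ↔
          Ev B (R.erase x) (nx R L x m) n :=
        ev_congr fun a ha y _ => by rw [Function.update_of_ne (Finset.ne_of_mem_erase ha)]
      by_cases h : Ev B R L (Function.update n x m)
      · rw [if_pos h, if_pos (h2.1 (h1.1 h))]
      · rw [if_neg h, if_neg (fun h' => h (h1.2 (h2.2 h')))]
    simp only [e, Finset.mul_sum]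
    rw [Finset.sum_comm]
    refine Finset.sum_congr rfl fun m _ => Finset.sum_congr rfl fun n _ => ?_
    ring
  -- step 2
  have s2 : ∑ m, p x m * ∑ n : V → V → Bool, (∏ v, p v (n v)) *
        (if Ev B (R.erase x) (nx R L x m) n then (1 : ℝ) else 0) ≤
      ∑ m, p x m * ∑ c : Sym2 V → Bool, pr q c *
        (if Ev B (R.erase x) (nx R L x m) (fun a y => c s(a, y)) then (1 : ℝ) else 0) :=
    Finset.sum_le_sum fun m _ => mul_le_mul_of_nonneg_left
      (ih _ hcard _ _ rfl (nx_subset hL x m)) (hp0 x m)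
  -- step 3
  have s3 : ∑ m, p x m * ∑ c : Sym2 V → Bool, pr q c *
        (if Ev B (R.erase x) (nx R L x m) (fun a y => c s(a, y)) then (1 : ℝ) else 0) =
      ∑ c : Sym2 V → Bool, pr q c *
        ((if L.erase x ⊆ Us B (R.erase x) (fun a y => c s(a, y)) then (1 : ℝ) else 0) *
          ∑ m, p x m * (if ∀ y ∈ R.erase x \ Us B (R.erase x) (fun a y => c s(a, y)),
            m y = false then (1 : ℝ) else 0)) := by
    simp only [Finset.mul_sum]
    rw [Finset.sum_comm]
    refine Finset.sum_congr rfl fun c _ => Finset.sum_congr rfl fun m _ => ?_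
    have h : Ev B (R.erase x) (nx R L x m) (fun a y => c s(a, y)) ↔
        L.erase x ⊆ Us B (R.erase x) (fun a y => c s(a, y)) ∧
          ∀ y ∈ R.erase x \ Us B (R.erase x) (fun a y => c s(a, y)), m y = false := by
      rw [ev_iff, nx_sub_iff]
    by_cases h1 : L.erase x ⊆ Us B (R.erase x) (fun a y => c s(a, y))
    · by_cases h2 : ∀ y ∈ R.erase x \ Us B (R.erase x) (fun a y => c s(a, y)), m y = false
      · rw [if_pos (h.2 ⟨h1, h2⟩), if_pos h1, if_pos h2]; ring
      · rw [if_neg (fun h' => h2 (h.1 h').2), if_pos h1, if_neg h2]; ring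
    · rw [if_neg (fun h' => h1 (h.1 h').1), if_neg h1]; ring
  -- step 4
  have s4 : ∑ c : Sym2 V → Bool, pr q c *
        ((if L.erase x ⊆ Us B (R.erase x) (fun a y => c s(a, y)) then (1 : ℝ) else 0) *
          ∑ m, p x m * (if ∀ y ∈ R.erase x \ Us B (R.erase x) (fun a y => c s(a, y)),
            m y = false then (1 : ℝ) else 0)) ≤
      ∑ c : Sym2 V → Bool, pr q c *
        ((if L.erase x ⊆ Us B (R.erase x) (fun a y => c s(a, y)) then (1 : ℝ) else 0) *
          ∏ y ∈ R.erase x \ Us B (R.erase x) (fun a y => c s(a, y)), q s(x, y)) := by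
    refine Finset.sum_le_sum fun c _ => mul_le_mul_of_nonneg_left ?_ (pr_nonneg hq c)
    refine mul_le_mul_of_nonneg_left (hpq x _ ?_) (by split_ifs <;> norm_num)
    intro h
    exact Finset.notMem_erase x R (Finset.mem_sdiff.1 h).1
  -- step 5
  have hinv : ∀ (c : Sym2 V → Bool) (y : V) (b : Bool),
      Us B (R.erase x) (fun a y' => Function.update c s(x, y) b s(a, y')) =
        Us B (R.erase x) (fun a y => c s(a, y)) := by
    intro c y b
    refine us_congr fun a ha y' hy' => ?_
    refine Function.update_of_ne ?_ _ _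
    intro h
    rw [Sym2.eq_iff] at h
    rcases h with h | h
    · exact Finset.ne_of_mem_erase ha h.1
    · exact Finset.ne_of_mem_erase hy' h.2
  have s5 := edge2 q x (fun c => R.erase x \ Us B (R.erase x) (fun a y => c s(a, y)))
    (fun c => if L.erase x ⊆ Us B (R.erase x) (fun a y => c s(a, y)) then (1 : ℝ) else 0)
    (fun c y b => by
      show R.erase x \ Us B (R.erase x) (fun a y' => Function.update c s(x, y) b s(a, y')) = _
      rw [hinv])
    (fun c y b => by
      show (if L.erase x ⊆ Us B (R.erase x)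
        (fun a y' => Function.update c s(x, y) b s(a, y')) then (1 : ℝ) else 0) = _
      rw [hinv])
  -- step 6
  have s6 : ∀ c : Sym2 V → Bool,
      pr q c * ((if L.erase x ⊆ Us B (R.erase x) (fun a y => c s(a, y)) then (1 : ℝ) else 0) *
        if ∀ y ∈ R.erase x \ Us B (R.erase x) (fun a y => c s(a, y)), c s(x, y) = false
          then (1 : ℝ) else 0) =
      pr q c * (if Ev B R L (fun a y => c s(a, y)) then (1 : ℝ) else 0) := by
    intro c
    have h : Ev B R L (fun a y => c s(a, y)) ↔
        L.erase x ⊆ Us B (R.erase x) (fun a y => c s(a, y)) ∧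
          ∀ y ∈ R.erase x \ Us B (R.erase x) (fun a y => c s(a, y)), c s(x, y) = false := by
      rw [ev_step hL hx hB, ev_iff, nx_sub_iff]
    by_cases h1 : L.erase x ⊆ Us B (R.erase x) (fun a y => c s(a, y))
    · by_cases h2 : ∀ y ∈ R.erase x \ Us B (R.erase x) (fun a y => c s(a, y)), c s(x, y) = false
      · rw [if_pos (h.2 ⟨h1, h2⟩), if_pos h1, if_pos h2]; ring
      · rw [if_neg (fun h' => h2 (h.1 h').2), if_pos h1, if_neg h2]; ring
    · rw [if_neg (fun h' => h1 (h.1 h').1), if_neg h1]; ring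
  calc ∑ n : V → V → Bool, (∏ v, p v (n v)) * (if Ev B R L n then (1 : ℝ) else 0)
      = _ := s1
    _ ≤ _ := s2
    _ = _ := s3
    _ ≤ _ := s4
    _ = _ := s5
    _ = _ := Finset.sum_congr rfl fun c _ => s6 c

end Fin

open Classical in
theorem transfer {V : Type} [Fintype V] [DecidableEq V] {Ω : Type} [MeasurableSpace Ω]
    (P : Measure Ω) [IsProbabilityMeasure P] (N : V → Ω → V → Bool) (hN : ∀ x, Measurable (N x))
    (hind : iIndepFun N P) (A : (V → V → Bool) → Prop) :
    P.real {ω | A (fun x => N x ω)} =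
      ∑ n : V → V → Bool, (∏ v, P.real (N v ⁻¹' {n v})) * (if A n then (1 : ℝ) else 0) := by
  set F : Ω → V → V → Bool := fun ω x => N x ω with hF
  have hFm : Measurable F := measurable_pi_lambda _ fun x => hN x
  have e1 : {ω | A (fun x => N x ω)} = F ⁻¹' ((univ.filter A : Finset (V → V → Bool)) : Set _) := by
    ext ω
    simp [hF]
  rw [e1, ← sum_measureReal_preimage_singleton (univ.filter A)
    (fun y _ => hFm (measurableSet_singleton y)), Finset.sum_filter]
  refine Finset.sum_congr rfl fun n _ => ?_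
  have e2 : P.real (F ⁻¹' {n}) = ∏ v, P.real (N v ⁻¹' {n v}) := by
    have e3 : F ⁻¹' {n} = ⋂ v ∈ (univ : Finset V), N v ⁻¹' {n v} := by
      ext ω
      simp [hF, funext_iff]
    rw [e3, Measure.real, hind.measure_inter_preimage_eq_mul univ
      (fun v _ => measurableSet_singleton (n v)), ENNReal.toReal_prod]
    rfl
  rw [e2]
  split_ifs <;> simp

end Pool.Agent.H997.FRCL

namespace Pool.Agent.H997

open Pool.Agent.H979.FR Pool.Agent.TH994.LR Pool.Agent.H997.FRCL

theorem fr_cl : S_CL := by
  classical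
  intro V _ _ Ω _ P _ N hN hind w hw hyp o B
  set q : Sym2 V → ℝ := fun e => Real.exp (-1 * w e) with hq
  have hq1 : ∀ e, 0 ≤ q e ∧ q e ≤ 1 := by
    intro e
    refine ⟨(Real.exp_pos _).le, ?_⟩
    rw [hq]
    exact Real.exp_le_one_iff.2 (by have := hw e; linarith)
  set p : V → (V → Bool) → ℝ := fun x m => P.real (N x ⁻¹' {m}) with hp
  have hp1 : ∀ x, ∑ m, p x m = 1 := by
    intro x
    have h := sum_measureReal_preimage_singleton (μ := P) (f := N x) (univ : Finset (V → Bool))
      (fun y _ => hN x (measurableSet_singleton y))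
    rw [Finset.coe_univ, Set.preimage_univ, probReal_univ] at h
    exact h
  have hpq : ∀ (x : V) (S : Finset V), x ∉ S →
      ∑ m, p x m * (if ∀ y ∈ S, m y = false then (1 : ℝ) else 0) ≤ ∏ y ∈ S, q s(x, y) := by
    intro x S hS
    have e1 : ∑ m, p x m * (if ∀ y ∈ S, m y = false then (1 : ℝ) else 0) =
        P.real {ω | ∀ y ∈ S, N x ω y = false} := by
      have e2 : {ω | ∀ y ∈ S, N x ω y = false} =
          N x ⁻¹' ((univ.filter (fun m : V → Bool => ∀ y ∈ S, m y = false) :
            Finset (V → Bool)) : Set (V → Bool)) := by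
        ext ω
        simp
      rw [e2, ← sum_measureReal_preimage_singleton _
        (fun y _ => hN x (measurableSet_singleton y)), Finset.sum_filter]
      refine Finset.sum_congr rfl fun m _ => ?_
      split_ifs <;> simp [hp]
    rw [e1]
    have h := hyp x S hS
    have h2 : P.real {ω | ∀ y ∈ S, N x ω y = false} ≤ Real.exp (-∑ y ∈ S, w s(x, y)) :=
      ENNReal.toReal_le_of_le_ofReal (Real.exp_pos _).le h
    refine h2.trans (le_of_eq ?_)
    rw [hq, ← Real.exp_sum, ← Finset.sum_neg_distrib]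
    refine congrArg Real.exp (Finset.sum_congr rfl fun y _ => ?_)
    ring
  have main := fin_cl B p (fun x m => measureReal_nonneg) hp1 q hq1 hpq _ univ {o} rfl
    (Finset.subset_univ _)
  have t := transfer P N hN hind (fun n => Ev B univ {o} n)
  have e3 : {ω | ∃ U : Finset V, o ∈ U ∧ Disjoint U B ∧ ∀ x ∈ U, ∀ y ∉ U, N x ω y = false} =
      {ω | Ev B univ {o} (fun x => N x ω)} := by
    ext ω
    constructor
    · rintro ⟨U, h1, h2, h3⟩
      exact ⟨U, Finset.singleton_subset_iff.2 h1, Finset.subset_univ _, h2,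
        fun a ha y _ hy => h3 a ha y hy⟩
    · rintro ⟨U, h1, h2, h3, h4⟩
      exact ⟨U, Finset.singleton_subset_iff.1 h1, h3, fun a ha y hy => h4 a ha y (mem_univ y) hy⟩
  have e4 : ∀ c : Sym2 V → Bool, Ev B univ {o} (fun a y => c s(a, y)) ↔
      ∃ U, o ∈ U ∧ Disjoint U B ∧ Clo c U := by
    intro c
    constructor
    · rintro ⟨U, h1, h2, h3, h4⟩
      exact ⟨U, Finset.singleton_subset_iff.1 h1, h3, fun a ha y hy => h4 a ha y (mem_univ y) hy⟩
    · rintro ⟨U, h1, h2, h3⟩
      exact ⟨U, Finset.singleton_subset_iff.2 h1, Finset.subset_univ _, h2,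
        fun a ha y _ hy => h3 a ha y hy⟩
  rw [e3, ← ENNReal.ofReal_toReal (measure_ne_top P _)]
  refine ENNReal.ofReal_le_ofReal ?_
  refine (le_of_eq t).trans (main.trans (le_of_eq ?_))
  refine Finset.sum_congr rfl fun c _ => ?_
  by_cases h : ∃ U, o ∈ U ∧ Disjoint U B ∧ Clo c U
  · rw [if_pos h, if_pos ((e4 c).2 h)]
  · rw [if_neg h, if_neg (fun h' => h ((e4 c).1 h'))]

end Pool.Agent.H997
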